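import Mathlib

/-!
# A principal block of an orthogonal matrix, closed up to an orthogonal matrix

If `[a r; s t]` is orthogonal and `Y` solves `Y = s + t Y`, then `a + r Y` is orthogonal. When the
entries of the large matrix are at most `ε` and `2 d ε ≤ 1`, where `d` is the size of `t`, the
solution exists and its entries are at most `2 ε`.
-/

namespace Pool.Agent.N908.FO

open Matrix

variable {n d : Type*} [Fintype n] [Fintype d] [DecidableEq n] [DecidableEq d]

theorem close_up {a : Matrix n n ℝ} {r : Matrix n d ℝ} {s : Matrix d n ℝ} {t : Matrix d d ℝ}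
    (h : (fromBlocks a r s t)ᵀ * fromBlocks a r s t = 1) {Y : Matrix d n ℝ} (hY : Y = s + t * Y) :
    (a + r * Y)ᵀ * (a + r * Y) = 1 := by
  have h1 : fromBlocks a r s t * fromRows (1 : Matrix n n ℝ) Y = fromRows (a + r * Y) Y := by
    rw [fromBlocks_mul_fromRows, Matrix.mul_one, Matrix.mul_one, ← hY]
  have h2 : (fromRows (a + r * Y) Y)ᵀ * fromRows (a + r * Y) Y =
      (fromRows (1 : Matrix n n ℝ) Y)ᵀ * fromRows (1 : Matrix n n ℝ) Y := by
    rw [← h1, transpose_mul, Matrix.mul_assoc, ← Matrix.mul_assoc (fromBlocks a r s t)ᵀ, h,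
      Matrix.one_mul]
  rw [transpose_fromRows, transpose_fromRows, fromCols_mul_fromRows, fromCols_mul_fromRows,
    transpose_one, Matrix.one_mul] at h2
  exact add_right_cancel h2

/-- a solution of `v = c + t v` is small -/
theorem fix_bound {t : Matrix d d ℝ} {ε δ : ℝ} (ht : ∀ i j, |t i j| ≤ ε)
    (hd : 2 * (Fintype.card d : ℝ) * ε ≤ 1) {v c : d → ℝ}
    (hv : ∀ i, v i = c i + ∑ j, t i j * v j) (hc : ∀ i, |c i| ≤ δ) : ∀ i, |v i| ≤ 2 * δ := by
  classical
  intro i
  have : Nonempty d := ⟨i⟩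
  obtain ⟨k, -, hk⟩ := Finset.exists_max_image Finset.univ (fun i => |v i|) ⟨i, Finset.mem_univ i⟩
  have hk' : ∀ j, |v j| ≤ |v k| := fun j => hk j (Finset.mem_univ j)
  have hε : 0 ≤ ε := (abs_nonneg _).trans (ht k k)
  have h1 : |v k| ≤ δ + (Fintype.card d : ℝ) * ε * |v k| := by
    conv_lhs => rw [hv k]
    refine (abs_add_le _ _).trans (add_le_add (hc k) ?_)
    refine (Finset.abs_sum_le_sum_abs _ _).trans ?_
    calc ∑ j, |t k j * v j| ≤ ∑ _j : d, ε * |v k| := by
          refine Finset.sum_le_sum fun j _ => ?_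
          rw [abs_mul]
          exact mul_le_mul (ht k j) (hk' j) (abs_nonneg _) hε
      _ = _ := by rw [Finset.sum_const, Finset.card_univ, nsmul_eq_mul]; ring
  have h2 : (Fintype.card d : ℝ) * ε * |v k| ≤ 1 / 2 * |v k| :=
    mul_le_mul_of_nonneg_right (by linarith) (abs_nonneg _)
  have := hk' i
  linarith

theorem exists_fix {s : Matrix d n ℝ} {t : Matrix d d ℝ} {ε : ℝ} (ht : ∀ i j, |t i j| ≤ ε)
    (hs : ∀ i j, |s i j| ≤ ε) (hd : 2 * (Fintype.card d : ℝ) * ε ≤ 1) :
    ∃ Y : Matrix d n ℝ, Y = s + t * Y ∧ ∀ i j, |Y i j| ≤ 2 * ε := by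
  have hinj : Function.Injective ((1 - t).mulVec) := by
    intro v w hvw
    have hvw' : (1 - t).mulVec (v - w) = 0 := by rw [mulVec_sub, hvw, sub_self]
    have h1 : ∀ i, (v - w) i = 0 + ∑ j, t i j * (v - w) j := by
      intro i
      have := congrFun hvw' i
      rw [sub_mulVec, one_mulVec] at this
      have h2 : (v - w) i - ∑ j, t i j * (v - w) j = 0 := this
      linarith
    have h3 := fix_bound (δ := 0) (c := fun _ => 0) ht hd h1 (fun i => by simp)
    funext i
    have := h3 i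
    rw [mul_zero] at this
    have h4 := abs_nonpos_iff.1 this
    have : v i - w i = 0 := h4
    linarith
  have hu : IsUnit (1 - t) := by
    rw [← Matrix.mulVec_injective_iff_isUnit]
    exact hinj
  have hdet : IsUnit (1 - t).det := (Matrix.isUnit_iff_isUnit_det _).1 hu
  refine ⟨(1 - t)⁻¹ * s, ?_, ?_⟩
  · have h1 : (1 - t) * ((1 - t)⁻¹ * s) = s := by
      rw [← Matrix.mul_assoc, Matrix.mul_nonsing_inv _ hdet, Matrix.one_mul]
    rw [Matrix.sub_mul, Matrix.one_mul] at h1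
    exact sub_eq_iff_eq_add.1 h1
  · have h1 : (1 - t)⁻¹ * s = s + t * ((1 - t)⁻¹ * s) := by
      have h1 : (1 - t) * ((1 - t)⁻¹ * s) = s := by
        rw [← Matrix.mul_assoc, Matrix.mul_nonsing_inv _ hdet, Matrix.one_mul]
      rw [Matrix.sub_mul, Matrix.one_mul] at h1
      exact sub_eq_iff_eq_add.1 h1
    intro i j
    refine fix_bound (c := fun i => s i j) (v := fun i => ((1 - t)⁻¹ * s) i j) ht hd ?_
      (fun i => hs i j) i
    intro k
    have := congrFun (congrFun h1 k) j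
    rw [Matrix.add_apply, Matrix.mul_apply (M := t)] at this
    exact this

/-- an orthogonal matrix of order `n + d` with entries `± ε`, `2 d ε ≤ 1`, gives an orthogonal
matrix of order `n` with entries within `2 d ε ^ 2` of `± ε` -/
theorem flat_of_block {M : Matrix (n ⊕ d) (n ⊕ d) ℝ} {ε : ℝ} (hM : Mᵀ * M = 1)
    (hε : ∀ i j, |M i j| = ε) (hd : 2 * (Fintype.card d : ℝ) * ε ≤ 1) :
    ∃ U : Matrix n n ℝ, Uᵀ * U = 1 ∧ ∀ i j, |U i j - M (Sum.inl i) (Sum.inl j)| ≤
      2 * (Fintype.card d : ℝ) * ε ^ 2 := by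
  obtain ⟨Y, hY, hYb⟩ := exists_fix (s := M.toBlocks₂₁) (t := M.toBlocks₂₂) (ε := ε)
    (fun i j => (hε _ _).le) (fun i j => (hε _ _).le) hd
  refine ⟨M.toBlocks₁₁ + M.toBlocks₁₂ * Y, ?_, ?_⟩
  · refine close_up (s := M.toBlocks₂₁) (t := M.toBlocks₂₂) ?_ hY
    rw [fromBlocks_toBlocks]
    exact hM
  · intro i j
    have h1 : (M.toBlocks₁₁ + M.toBlocks₁₂ * Y) i j - M (Sum.inl i) (Sum.inl j) =
        ∑ k, M (Sum.inl i) (Sum.inr k) * Y k j := by
      rw [Matrix.add_apply, Matrix.mul_apply]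
      simp [toBlocks₁₁, toBlocks₁₂]
    rw [h1]
    refine (Finset.abs_sum_le_sum_abs _ _).trans ?_
    calc ∑ k, |M (Sum.inl i) (Sum.inr k) * Y k j| ≤ ∑ _k : d, ε * (2 * ε) := by
          refine Finset.sum_le_sum fun k _ => ?_
          rw [abs_mul, hε]
          exact mul_le_mul_of_nonneg_left (hYb k j) ((hε (Sum.inl i) (Sum.inr k)) ▸ abs_nonneg _)
      _ = _ := by rw [Finset.sum_const, Finset.card_univ, nsmul_eq_mul]; ring

end Pool.Agent.N908.FO
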