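import Mathlib

/-!
# Orthogonal matrices of order not divisible by four are not too flat
-/

namespace Pool.Agent.N908.FO

open Matrix

/-- the squared Frobenius distance of `H Hᵀ` from `n I`, for a sign matrix `H` of order `n` not
divisible by four -/
theorem gram_far {n : ℕ} (hn : 3 ≤ n) (h4 : ¬ 4 ∣ n) (H : Matrix (Fin n) (Fin n) ℤ)
    (hH : ∀ i j, H i j = 1 ∨ H i j = -1) :
    2 / 3 * (n : ℝ) ^ 2 ≤ ∑ i, ∑ j, ((((H * Hᵀ) i j - if i = j then (n : ℤ) else 0 : ℤ)) : ℝ) ^ 2 := by
  have hz : ∀ i j, (H * Hᵀ) i j = ∑ k, H i k * H j k := fun i j => by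
    rw [Matrix.mul_apply]; rfl
  have hdiag : ∀ i, (H * Hᵀ) i i = n := by
    intro i
    rw [hz]
    have : ∀ k, H i k * H i k = 1 := fun k => by
      rcases hH i k with h | h <;> rw [h] <;> norm_num
    simp [this]
  have hnR : (3 : ℝ) ≤ n := by exact_mod_cast hn
  -- the key congruence
  have hkey : ∀ i j, (4 : ℤ) ∣ (n : ℤ) - ∑ k, H i k - ∑ k, H j k + (H * Hᵀ) i j := by
    intro i j
    have h1 : (n : ℤ) - ∑ k, H i k - ∑ k, H j k + (H * Hᵀ) i j =
        ∑ k, (1 - H i k) * (1 - H j k) := by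
      rw [hz]
      have : (n : ℤ) = ∑ _k : Fin n, (1 : ℤ) := by simp
      rw [this, ← Finset.sum_sub_distrib, ← Finset.sum_sub_distrib, ← Finset.sum_add_distrib]
      exact Finset.sum_congr rfl fun k _ => by ring
    rw [h1]
    refine Finset.dvd_sum fun k _ => ?_
    rcases hH i k with h | h <;> rcases hH j k with h' | h' <;> rw [h, h'] <;> norm_num
  have hpar : ∀ i, (2 : ℤ) ∣ (n : ℤ) - ∑ k, H i k := by
    intro i
    have h1 : (n : ℤ) - ∑ k, H i k = ∑ k, (1 - H i k) := by
      have : (n : ℤ) = ∑ _k : Fin n, (1 : ℤ) := by simp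
      rw [this, ← Finset.sum_sub_distrib]
    rw [h1]
    refine Finset.dvd_sum fun k _ => ?_
    rcases hH i k with h | h <;> rw [h] <;> norm_num
  rcases Nat.even_or_odd n with hev | hodd
  · -- `n ≡ 2` modulo 4
    have hn2 : (n : ℤ) % 4 = 2 := by
      obtain ⟨m, hm⟩ := hev
      omega
    have hn6 : (6 : ℝ) ≤ n := by
      have : 6 ≤ n := by omega
      exact_mod_cast this
    let σ : Fin n → ℝ := fun i => if (4 : ℤ) ∣ ∑ k, H i k then 1 else -1
    have hσ : ∀ i, σ i = 1 ∨ σ i = -1 := by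
      intro i
      by_cases h : (4 : ℤ) ∣ ∑ k, H i k
      · exact Or.inl (if_pos h)
      · exact Or.inr (if_neg h)
    have hpt : ∀ i j, 2 * (1 + σ i * σ j) - (if i = j then (4 : ℝ) else 0) ≤
        ((((H * Hᵀ) i j - if i = j then (n : ℤ) else 0 : ℤ)) : ℝ) ^ 2 := by
      intro i j
      by_cases hij : i = j
      · subst hij
        have h2 : σ i * σ i = 1 := by rcases hσ i with h | h <;> rw [h] <;> norm_num
        rw [if_pos rfl, if_pos rfl, h2, hdiag]
        norm_num
      · rw [if_neg hij, if_neg hij]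
        by_cases hs : σ i = σ j
        · have hsame : ((4 : ℤ) ∣ ∑ k, H i k) ↔ ((4 : ℤ) ∣ ∑ k, H j k) := by
            by_cases h1 : (4 : ℤ) ∣ ∑ k, H i k <;> by_cases h2 : (4 : ℤ) ∣ ∑ k, H j k
            · exact ⟨fun _ => h2, fun _ => h1⟩
            · exfalso
              have e1 : σ i = 1 := if_pos h1
              have e2 : σ j = -1 := if_neg h2
              rw [e1, e2] at hs
              norm_num at hs
            · exfalso
              have e1 : σ i = -1 := if_neg h1
              have e2 : σ j = 1 := if_pos h2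
              rw [e1, e2] at hs
              norm_num at hs
            · exact ⟨fun h => absurd h h1, fun h => absurd h h2⟩
          have h3 := hkey i j
          have h4' := hpar i
          have h5 := hpar j
          have h6 : ((H * Hᵀ) i j) % 4 = 2 := by
            generalize (∑ k, H i k) = x at *
            generalize (∑ k, H j k) = y at *
            generalize ((H * Hᵀ) i j) = z at *
            omega
          have h7 : (4 : ℤ) ≤ ((H * Hᵀ) i j) ^ 2 := by
            generalize ((H * Hᵀ) i j) = z at *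
            have : z ≤ -2 ∨ 2 ≤ z := by omega
            rcases this with h | h <;> nlinarith
          have h8 : (4 : ℝ) ≤ (((H * Hᵀ) i j : ℤ) : ℝ) ^ 2 := by exact_mod_cast h7
          have h9 : σ i * σ j = 1 := by
            rw [hs]
            rcases hσ j with h | h <;> rw [h] <;> norm_num
          rw [h9, sub_zero, sub_zero]
          linarith
        · have h9 : σ i * σ j = -1 := by
            rcases hσ i with h | h <;> rcases hσ j with h' | h' <;> rw [h, h'] at hs ⊢ <;>
              first | exact absurd rfl hs | norm_num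
          rw [h9]
          have := sq_nonneg ((((H * Hᵀ) i j - 0 : ℤ)) : ℝ)
          linarith
    have hsum : ∑ i, ∑ j, (2 * (1 + σ i * σ j) - (if i = j then (4 : ℝ) else 0)) =
        2 * (n : ℝ) ^ 2 + 2 * (∑ i, σ i) ^ 2 - 4 * n := by
      have e1 : ∀ i j, (2 * (1 + σ i * σ j) - (if i = j then (4 : ℝ) else 0)) =
          2 + 2 * (σ i * σ j) - (if i = j then (4 : ℝ) else 0) := fun i j => by ring
      simp only [e1, Finset.sum_sub_distrib, Finset.sum_add_distrib, Finset.sum_const,
        Finset.card_univ, Fintype.card_fin, nsmul_eq_mul, ← Finset.mul_sum, Finset.sum_ite_eq,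
        Finset.mem_univ, if_true, ← Finset.sum_mul]
      ring
    have := Finset.sum_le_sum fun i (_ : i ∈ Finset.univ) =>
      Finset.sum_le_sum fun j (_ : j ∈ Finset.univ) => hpt i j
    refine le_trans ?_ this
    rw [hsum]
    have := sq_nonneg (∑ i, σ i)
    nlinarith
  · have hpt : ∀ i j, 1 - (if i = j then (1 : ℝ) else 0) ≤
        ((((H * Hᵀ) i j - if i = j then (n : ℤ) else 0 : ℤ)) : ℝ) ^ 2 := by
      intro i j
      by_cases hij : i = j
      · subst hij
        rw [if_pos rfl, if_pos rfl, hdiag]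
        norm_num
      · rw [if_neg hij, if_neg hij]
        have h3 := hkey i j
        have h4' := hpar i
        have h5 := hpar j
        have h6 : ((H * Hᵀ) i j) % 2 = 1 := by
          have : (n : ℤ) % 2 = 1 := by
            obtain ⟨m, hm⟩ := hodd
            omega
          generalize (∑ k, H i k) = x at *
          generalize (∑ k, H j k) = y at *
          generalize ((H * Hᵀ) i j) = z at *
          omega
        have h7 : (1 : ℤ) ≤ ((H * Hᵀ) i j) ^ 2 := by
          generalize ((H * Hᵀ) i j) = z at *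
          have : z ≤ -1 ∨ 1 ≤ z := by omega
          rcases this with h | h <;> nlinarith
        have h8 : (1 : ℝ) ≤ (((H * Hᵀ) i j : ℤ) : ℝ) ^ 2 := by exact_mod_cast h7
        rw [sub_zero, sub_zero]
        linarith
    have hsum : ∑ i : Fin n, ∑ j : Fin n, (1 - (if i = j then (1 : ℝ) else 0)) =
        (n : ℝ) ^ 2 - n := by
      simp only [Finset.sum_sub_distrib, Finset.sum_const, Finset.card_univ, Fintype.card_fin,
        nsmul_eq_mul, Finset.sum_ite_eq, Finset.mem_univ, if_true]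
      ring
    have := Finset.sum_le_sum fun i (_ : i ∈ Finset.univ) =>
      Finset.sum_le_sum fun j (_ : j ∈ Finset.univ) => hpt i j
    refine le_trans ?_ this
    rw [hsum]
    nlinarith

open scoped Matrix.Norms.Frobenius

theorem frob_sq {m n : Type*} [Fintype m] [Fintype n] (A : Matrix m n ℝ) :
    ‖A‖ ^ 2 = ∑ i, ∑ j, A i j ^ 2 := by
  rw [frobenius_norm_def, ← Real.sqrt_eq_rpow, Real.sq_sqrt]
  · refine Finset.sum_congr rfl fun i _ => Finset.sum_congr rfl fun j _ => ?_
    rw [Real.rpow_two, Real.norm_eq_abs, sq_abs]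
  · positivity

theorem frob_trace {m n : Type*} [Fintype m] [Fintype n] (A : Matrix m n ℝ) :
    ‖A‖ ^ 2 = (Aᵀ * A).trace := by
  rw [frob_sq, Matrix.trace, Finset.sum_comm]
  refine Finset.sum_congr rfl fun j _ => ?_
  rw [Matrix.diag_apply, Matrix.mul_apply]
  exact Finset.sum_congr rfl fun i _ => by rw [Matrix.transpose_apply]; ring

theorem frob_orth {m n : Type*} [Fintype m] [Fintype n] [DecidableEq m] {U : Matrix m m ℝ}
    (hU : Uᵀ * U = 1) (A : Matrix m n ℝ) : ‖U * A‖ = ‖A‖ := by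
  have : ‖U * A‖ ^ 2 = ‖A‖ ^ 2 := by
    rw [frob_trace, frob_trace, transpose_mul, Matrix.mul_assoc, ← Matrix.mul_assoc Uᵀ, hU,
      Matrix.one_mul]
  exact (pow_left_inj₀ (norm_nonneg _) (norm_nonneg _) two_ne_zero).1 this

/-- If `4` does not divide `n ≥ 3` then every orthogonal matrix of order `n` has squared Euclidean
distance at least `1 / 9` from the matrices with entries `± 1 / √n`. -/
theorem dist_low {n : ℕ} (hn : 3 ≤ n) (h4 : ¬ 4 ∣ n) (U : Matrix (Fin n) (Fin n) ℝ)
    (hU : U * Uᵀ = 1) : 1 / 9 ≤ ∑ i, ∑ j, (|U i j| - 1 / √(n : ℝ)) ^ 2 := by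
  have hn0 : (0 : ℝ) < n := by
    have : 0 < n := by omega
    exact_mod_cast this
  set w := √(n : ℝ) with hw
  have hw0 : 0 < w := Real.sqrt_pos.2 hn0
  have hww : w ^ 2 = n := Real.sq_sqrt hn0.le
  set S := ∑ i, ∑ j, (|U i j| - 1 / w) ^ 2 with hS
  have hS0 : 0 ≤ S := Finset.sum_nonneg fun i _ => Finset.sum_nonneg fun j _ => sq_nonneg _
  let H : Matrix (Fin n) (Fin n) ℤ := fun i j => if 0 ≤ U i j then 1 else -1
  have hH : ∀ i j, H i j = 1 ∨ H i j = -1 := by
    intro i j
    by_cases h : 0 ≤ U i j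
    · exact Or.inl (if_pos h)
    · exact Or.inr (if_neg h)
  let HR : Matrix (Fin n) (Fin n) ℝ := H.map (Int.cast : ℤ → ℝ)
  let E : Matrix (Fin n) (Fin n) ℝ := w • U - HR
  have hE : ∀ i j, E i j ^ 2 = w ^ 2 * (|U i j| - 1 / w) ^ 2 := by
    intro i j
    have h1 : E i j = w * U i j - ((H i j : ℤ) : ℝ) := rfl
    rw [h1]
    by_cases h : 0 ≤ U i j
    · have h2 : H i j = 1 := if_pos h
      rw [h2, abs_of_nonneg h, Int.cast_one]
      field_simp
    · have h2 : H i j = -1 := if_neg h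
      rw [h2, abs_of_neg (not_le.1 h)]
      push_cast
      field_simp
      ring
  have hEn : ‖E‖ ^ 2 = w ^ 2 * S := by
    rw [frob_sq, hS, Finset.mul_sum]
    refine Finset.sum_congr rfl fun i _ => ?_
    rw [Finset.mul_sum]
    exact Finset.sum_congr rfl fun j _ => hE i j
  have hEn' : ‖E‖ = w * √S := by
    have : ‖E‖ ^ 2 = (w * √S) ^ 2 := by rw [hEn, mul_pow, Real.sq_sqrt hS0]
    exact (pow_left_inj₀ (norm_nonneg _) (by positivity) two_ne_zero).1 this
  have hUt : Uᵀ * U = 1 := mul_eq_one_comm.1 hU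
  have hHR : HR = w • U - E := by simp [E]
  have hG : HR * HRᵀ - (n : ℝ) • (1 : Matrix (Fin n) (Fin n) ℝ) =
      E * Eᵀ - w • (U * Eᵀ) - w • (U * Eᵀ)ᵀ := by
    rw [hHR, transpose_sub, transpose_smul, Matrix.sub_mul, Matrix.mul_sub, Matrix.mul_sub,
      smul_mul, smul_mul, Matrix.mul_smul, Matrix.mul_smul, smul_smul, hU, ← pow_two, hww,
      transpose_mul, transpose_transpose]
    abel
  have hn1 : ‖HR * HRᵀ - (n : ℝ) • (1 : Matrix (Fin n) (Fin n) ℝ)‖ ≤
      ‖E‖ ^ 2 + 2 * (w * ‖E‖) := by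
    rw [hG]
    refine (norm_sub_le _ _).trans ?_
    have h1 : ‖w • (U * Eᵀ)ᵀ‖ = w * ‖E‖ := by
      rw [norm_smul, frobenius_norm_transpose, frob_orth hUt, frobenius_norm_transpose,
        Real.norm_of_nonneg hw0.le]
    have h2 : ‖E * Eᵀ - w • (U * Eᵀ)‖ ≤ ‖E‖ ^ 2 + w * ‖E‖ := by
      refine (norm_sub_le _ _).trans (add_le_add ?_ ?_)
      · refine (frobenius_norm_mul _ _).trans ?_
        rw [frobenius_norm_transpose, pow_two]
      · rw [norm_smul, frob_orth hUt, frobenius_norm_transpose, Real.norm_of_nonneg hw0.le]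
    rw [h1]
    linarith
  have hfar := gram_far hn h4 H hH
  have hEq : ∑ i, ∑ j, ((((H * Hᵀ) i j - if i = j then (n : ℤ) else 0 : ℤ)) : ℝ) ^ 2 =
      ‖HR * HRᵀ - (n : ℝ) • (1 : Matrix (Fin n) (Fin n) ℝ)‖ ^ 2 := by
    rw [frob_sq]
    refine Finset.sum_congr rfl fun i _ => Finset.sum_congr rfl fun j _ => ?_
    congr 1
    rw [Matrix.sub_apply, Matrix.smul_apply, Matrix.one_apply, Matrix.mul_apply, Matrix.mul_apply]
    have : ∀ k, ((H i k * Hᵀ k j : ℤ) : ℝ) = HR i k * HRᵀ k j := by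
      intro k
      push_cast
      rfl
    push_cast
    by_cases hij : i = j
    · simp [hij, HR]
    · simp [hij, HR]
  rw [hEq] at hfar
  have hle : ‖HR * HRᵀ - (n : ℝ) • (1 : Matrix (Fin n) (Fin n) ℝ)‖ ≤ n * (S + 2 * √S) := by
    refine hn1.trans (le_of_eq ?_)
    rw [hEn, hEn', ← hww]
    ring
  have hfar2 : 2 / 3 * (n : ℝ) ^ 2 ≤ (n * (S + 2 * √S)) ^ 2 :=
    hfar.trans (pow_le_pow_left₀ (norm_nonneg _) hle 2)
  by_contra hcon
  push Not at hcon
  have h5 : √S < 1 / 3 := by
    rw [Real.sqrt_lt' (by norm_num)]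
    norm_num
    linarith
  have h6 : S + 2 * √S ≤ 7 / 9 := by linarith
  have h7 : (n * (S + 2 * √S)) ^ 2 ≤ (n * (7 / 9)) ^ 2 :=
    pow_le_pow_left₀ (by positivity) (mul_le_mul_of_nonneg_left h6 hn0.le) 2
  have h8 : 0 < (n : ℝ) ^ 2 := by positivity
  nlinarith

end Pool.Agent.N908.FO
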