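import Pool.Agent.W69.MD.Iter
import Pool.Agent.N908.FO.Alg
import Pool.Agent.N908.FO.Low

/-!
# Flat orthogonal matrices of every order
-/

namespace Pool.Agent.N908.FO

open Matrix Pool.Agent.W851.Had

/-- the 1-norm of an orthogonal matrix and its distance from the matrices with entries `± 1/√n` -/
theorem one_norm {n : ℕ} (hn : 0 < n) (U : Matrix (Fin n) (Fin n) ℝ) (hU : U * Uᵀ = 1) :
    ∑ i, ∑ j, |U i j| = n * √(n : ℝ) -
      √(n : ℝ) / 2 * ∑ i, ∑ j, (|U i j| - 1 / √(n : ℝ)) ^ 2 := by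
  have hn0 : (0 : ℝ) < n := by exact_mod_cast hn
  have hw0 : 0 < √(n : ℝ) := Real.sqrt_pos.2 hn0
  have hww : √(n : ℝ) ^ 2 = n := Real.sq_sqrt hn0.le
  have hrow : ∀ i, ∑ j, U i j ^ 2 = 1 := by
    intro i
    have := congrFun (congrFun hU i) i
    rw [Matrix.mul_apply, Matrix.one_apply_eq] at this
    rw [← this]
    exact Finset.sum_congr rfl fun j _ => by rw [Matrix.transpose_apply]; ring
  have h1 : ∑ i, ∑ j, (|U i j| - 1 / √(n : ℝ)) ^ 2 =
      2 * n - 2 / √(n : ℝ) * ∑ i, ∑ j, |U i j| := by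
    have e1 : ∀ i j, (|U i j| - 1 / √(n : ℝ)) ^ 2 =
        U i j ^ 2 + 1 / n - 2 / √(n : ℝ) * |U i j| := by
      intro i j
      have h2 : (1 / √(n : ℝ)) ^ 2 = 1 / n := by rw [div_pow, hww, one_pow]
      rw [sub_sq, sq_abs, h2]
      ring
    simp only [e1, Finset.sum_sub_distrib, Finset.sum_add_distrib, hrow, Finset.sum_const,
      Finset.card_univ, Fintype.card_fin, nsmul_eq_mul, ← Finset.mul_sum]
    field_simp
    ring
  rw [h1]
  field_simp
  ring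

/-- a Hadamard matrix of order `n + d` with `4 d ^ 2 ≤ n` gives a flat orthogonal matrix of
order `n` -/
theorem flat_of_had {n d : ℕ} (hn : 0 < n) (hd : 4 * d ^ 2 ≤ n)
    (hH : Pool.Agent.H108R3.Had.HasHad (n + d)) :
    ∃ U : Matrix (Fin n) (Fin n) ℝ, U * Uᵀ = 1 ∧
      ∀ i j, |(|U i j|) - 1 / √(n : ℝ)| ≤ 3 * d / n := by
  obtain ⟨H, hH1, hH2⟩ := hH
  have hn0 : (0 : ℝ) < n := by exact_mod_cast hn
  have hd0 : (0 : ℝ) ≤ d := Nat.cast_nonneg d
  set m : ℝ := (n : ℝ) + d with hm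
  have hm0 : 0 < m := by linarith
  have hsm : 0 < √m := Real.sqrt_pos.2 hm0
  have hsm2 : √m ^ 2 = m := Real.sq_sqrt hm0.le
  have hsn : 0 < √(n : ℝ) := Real.sqrt_pos.2 hn0
  have hsn2 : √(n : ℝ) ^ 2 = n := Real.sq_sqrt hn0.le
  have hle : √(n : ℝ) ≤ √m := Real.sqrt_le_sqrt (by linarith)
  let R : Matrix (Fin (n + d)) (Fin (n + d)) ℝ := H.map (Int.cast : ℤ → ℝ)
  have hR : R * Rᵀ = m • (1 : Matrix (Fin (n + d)) (Fin (n + d)) ℝ) := by
    have h1 : R * Rᵀ = (H * Hᵀ).map (Int.cast : ℤ → ℝ) := by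
      ext i j
      rw [Matrix.map_apply, Matrix.mul_apply, Matrix.mul_apply]
      push_cast
      rfl
    rw [h1, hH2]
    ext i j
    rw [Matrix.map_apply, Matrix.smul_apply, Matrix.smul_apply, Matrix.one_apply,
      Matrix.one_apply]
    split_ifs
    · simp [hm]
    · simp
  let M0 : Matrix (Fin (n + d)) (Fin (n + d)) ℝ := (1 / √m) • R
  have hM0 : M0 * M0ᵀ = 1 := by
    show ((1 / √m) • R) * ((1 / √m) • R)ᵀ = 1
    rw [transpose_smul, smul_mul, Matrix.mul_smul, smul_smul, hR, smul_smul]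
    have : 1 / √m * (1 / √m) * m = 1 := by
      rw [← hsm2]
      field_simp
      rw [Real.sqrt_sq hsm.le]
    rw [this, one_smul]
  have hM0' : M0ᵀ * M0 = 1 := mul_eq_one_comm.1 hM0
  let M : Matrix (Fin n ⊕ Fin d) (Fin n ⊕ Fin d) ℝ := M0.submatrix finSumFinEquiv finSumFinEquiv
  have hM : Mᵀ * M = 1 := by
    show (M0.submatrix finSumFinEquiv finSumFinEquiv)ᵀ *
      M0.submatrix finSumFinEquiv finSumFinEquiv = 1
    rw [transpose_submatrix, submatrix_mul_equiv, hM0', submatrix_one_equiv]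
  have hRe : ∀ i j, |R i j| = 1 := by
    intro i j
    have h1 : R i j = ((H i j : ℤ) : ℝ) := rfl
    rcases hH1 i j with h | h <;> rw [h1, h] <;> simp
  have hMe : ∀ i j, |M i j| = 1 / √m := by
    intro i j
    have h1 : M i j = 1 / √m * R (finSumFinEquiv i) (finSumFinEquiv j) := rfl
    rw [h1, abs_mul, hRe, mul_one, abs_of_pos (by positivity)]
  have hdm : 2 * (Fintype.card (Fin d) : ℝ) * (1 / √m) ≤ 1 := by
    rw [Fintype.card_fin, mul_one_div, div_le_one hsm]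
    refine Real.le_sqrt_of_sq_le ?_
    have h1 : ((4 * d ^ 2 : ℕ) : ℝ) ≤ n := by exact_mod_cast hd
    push_cast at h1
    nlinarith
  obtain ⟨U, hU1, hU2⟩ := flat_of_block hM hMe hdm
  refine ⟨U, mul_eq_one_comm.1 hU1, fun i j => ?_⟩
  have h1 := hU2 i j
  rw [Fintype.card_fin, div_pow, one_pow, hsm2] at h1
  have h2 : |(|U i j|) - 1 / √m| ≤ 2 * d * (1 / m) := by
    rw [← hMe (Sum.inl i) (Sum.inl j)]
    exact (abs_abs_sub_abs_le_abs_sub _ _).trans h1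
  have h3 : |1 / √m - 1 / √(n : ℝ)| ≤ d / n := by
    have h4 : 1 / √m ≤ 1 / √(n : ℝ) := one_div_le_one_div_of_le hsn hle
    rw [abs_sub_comm, abs_of_nonneg (by linarith)]
    have h5 : (√m - √(n : ℝ)) * (√m + √(n : ℝ)) = d := by
      have : (√m - √(n : ℝ)) * (√m + √(n : ℝ)) = √m ^ 2 - √(n : ℝ) ^ 2 := by ring
      rw [this, hsm2, hsn2, hm]
      ring
    have h6 : 1 / √(n : ℝ) - 1 / √m = (√m - √(n : ℝ)) / (√(n : ℝ) * √m) := by
      field_simp
    rw [h6, div_le_div_iff₀ (by positivity) hn0]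
    have h7 : (n : ℝ) ≤ √(n : ℝ) * √m := by
      nlinarith
    have h8 : √m - √(n : ℝ) ≤ d := by
      have hs1 : 1 ≤ √m := by
        rw [Real.one_le_sqrt]
        have : (1 : ℝ) ≤ n := by exact_mod_cast hn
        linarith
      nlinarith [sub_nonneg.2 hle]
    have h9 : 0 ≤ √m - √(n : ℝ) := sub_nonneg.2 hle
    calc (√m - √(n : ℝ)) * n ≤ d * n := mul_le_mul_of_nonneg_right h8 hn0.le
      _ ≤ d * (√(n : ℝ) * √m) := mul_le_mul_of_nonneg_left h7 hd0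
  have h4 : 2 * (d : ℝ) * (1 / m) ≤ 2 * (d / n) := by
    rw [mul_one_div, ← mul_div_assoc]
    exact div_le_div_of_nonneg_left (by positivity) hn0 (by linarith)
  calc |(|U i j|) - 1 / √(n : ℝ)| = |((|U i j|) - 1 / √m) + (1 / √m - 1 / √(n : ℝ))| := by
        congr 1; ring
    _ ≤ _ := abs_add_le _ _
    _ ≤ 2 * (d / n) + d / n := add_le_add (h2.trans h4) h3
    _ = 3 * d / n := by ring

theorem flat_exists : ∃ C : ℕ, ∀ k n : ℕ, 0 < n → n ≤ tow k →
    ∃ U : Matrix (Fin n) (Fin n) ℝ, U * Uᵀ = 1 ∧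
      ∀ i j, |(|U i j|) - 1 / √(n : ℝ)| ≤ 2 ^ (C ^ (k + 1)) / n := by
  obtain ⟨C, hC, h⟩ := main_had
  refine ⟨3 * C, fun k n hn hk => ?_⟩
  have hn0 : (0 : ℝ) < n := by exact_mod_cast hn
  set t := C ^ (k + 1) with ht
  have ht2 : 2 ≤ t := hC.trans (Nat.le_self_pow (by omega) C)
  have hexp : 2 * t + 2 ≤ (3 * C) ^ (k + 1) := by
    have h1 : 3 * t ≤ (3 * C) ^ (k + 1) := by
      rw [mul_pow, ← ht]
      exact Nat.mul_le_mul_right _ (Nat.le_self_pow (by omega) 3)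
    omega
  have hbig : (4 : ℝ) * (2 ^ t) ^ 2 ≤ 2 ^ ((3 * C) ^ (k + 1)) := by
    have h1 : (4 : ℝ) * (2 ^ t) ^ 2 = 2 ^ (2 * t + 2) := by
      rw [pow_add, ← pow_mul, mul_comm t 2]
      ring
    rw [h1]
    exact pow_le_pow_right₀ (by norm_num) hexp
  by_cases hcase : n < 4 * (2 ^ t) ^ 2
  · -- the identity matrix
    refine ⟨1, by rw [Matrix.transpose_one, Matrix.one_mul], fun i j => ?_⟩
    have h1 : (1 : ℝ) ≤ 2 ^ ((3 * C) ^ (k + 1)) / n := by
      rw [le_div_iff₀ hn0, one_mul]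
      refine le_trans ?_ hbig
      have : ((n : ℕ) : ℝ) ≤ ((4 * (2 ^ t) ^ 2 : ℕ) : ℝ) := by exact_mod_cast hcase.le
      push_cast at this
      exact this
    refine le_trans ?_ h1
    have h2 : (1 : ℝ) ≤ √(n : ℝ) := by
      rw [Real.one_le_sqrt]
      exact_mod_cast hn
    have h3 : 1 / √(n : ℝ) ≤ 1 := by
      rw [div_le_one (by linarith)]
      exact h2
    have h4 : 0 ≤ 1 / √(n : ℝ) := by positivity
    rw [Matrix.one_apply]
    split_ifs
    · rw [abs_one, abs_of_nonneg (by linarith)]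
      linarith
    · rw [abs_zero, zero_sub, abs_neg, abs_of_nonneg h4]
      exact h3
  · push Not at hcase
    set K := 2 ^ t with hK
    have hK4 : 4 ≤ K := by
      calc 4 = 2 ^ 2 := by norm_num
        _ ≤ 2 ^ t := Nat.pow_le_pow_right (by norm_num) ht2
    have hdm := Nat.div_add_mod n K
    have hmod := Nat.mod_lt n (show 0 < K by omega)
    have hKn : K ≤ n := by nlinarith
    have hq1 : n / K + 1 ≤ n := by
      have h1 : 1 ≤ n / K := (Nat.one_le_div_iff (by omega)).2 hKn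
      have h2 : 4 * (n / K) ≤ K * (n / K) := Nat.mul_le_mul_right _ hK4
      generalize n / K = y at *
      generalize K * y = z at *
      omega
    have hhad := h k (n / K + 1) t (hq1.trans hk) le_rfl
    set d := K - n % K with hd
    have hnd : K * (n / K + 1) = n + d := by
      rw [mul_add, mul_one]
      omega
    rw [← hK, hnd] at hhad
    have hdK : d ≤ K := Nat.sub_le _ _
    obtain ⟨U, hU1, hU2⟩ := flat_of_had hn
      ((Nat.mul_le_mul_left 4 (Nat.pow_le_pow_left hdK 2)).trans hcase) hhad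
    refine ⟨U, hU1, fun i j => (hU2 i j).trans ?_⟩
    rw [div_le_div_iff_of_pos_right hn0]
    refine le_trans ?_ hbig
    have h5 : ((3 * d : ℕ) : ℝ) ≤ ((4 * K ^ 2 : ℕ) : ℝ) := by
      have : 3 * d ≤ 4 * K ^ 2 := by nlinarith
      exact_mod_cast this
    rw [hK] at h5
    push_cast at h5
    exact h5

theorem flat_main : ∃ C : ℕ, ∀ k n : ℕ, 0 < n → n ≤ (fun x : ℕ => 2 ^ x)^[k] 1 →
    ∃ U : Matrix (Fin n) (Fin n) ℝ, U * Uᵀ = 1 ∧
      (∀ i j, |(|U i j|) - 1 / √(n : ℝ)| ≤ 2 ^ (C ^ (k + 1)) / n) ∧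
      (n : ℝ) * √(n : ℝ) - 2 ^ (C ^ (k + 1)) * √(n : ℝ) ≤ ∑ i, ∑ j, |U i j| := by
  obtain ⟨C, h⟩ := flat_exists
  refine ⟨2 * (C + 1), fun k n hn hk => ?_⟩
  obtain ⟨U, hU1, hU2⟩ := h k n hn hk
  have hn0 : (0 : ℝ) < n := by exact_mod_cast hn
  have hexp : 2 * C ^ (k + 1) ≤ (2 * (C + 1)) ^ (k + 1) := by
    rw [mul_pow]
    exact Nat.mul_le_mul (Nat.le_self_pow (by omega) 2)
      (Nat.pow_le_pow_left (by omega) _)
  have hpow : ((2 : ℝ) ^ (C ^ (k + 1))) ^ 2 ≤ 2 ^ ((2 * (C + 1)) ^ (k + 1)) := by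
    rw [← pow_mul, mul_comm]
    exact pow_le_pow_right₀ (by norm_num) hexp
  have h1 : (1 : ℝ) ≤ 2 ^ (C ^ (k + 1)) := one_le_pow₀ (by norm_num)
  refine ⟨U, hU1, fun i j => (hU2 i j).trans ?_, ?_⟩
  · rw [div_le_div_iff_of_pos_right hn0]
    nlinarith
  · rw [one_norm hn U hU1]
    have h2 : ∑ i, ∑ j, (|U i j| - 1 / √(n : ℝ)) ^ 2 ≤ (2 ^ (C ^ (k + 1))) ^ 2 := by
      calc ∑ i, ∑ j, (|U i j| - 1 / √(n : ℝ)) ^ 2 ≤
          ∑ _i : Fin n, ∑ _j : Fin n, (2 ^ (C ^ (k + 1)) / (n : ℝ)) ^ 2 := by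
            refine Finset.sum_le_sum fun i _ => Finset.sum_le_sum fun j _ => ?_
            rw [← sq_abs]
            exact pow_le_pow_left₀ (abs_nonneg _) (hU2 i j) 2
        _ = _ := by
            simp only [Finset.sum_const, Finset.card_univ, Fintype.card_fin, nsmul_eq_mul]
            field_simp
    have h3 : 0 ≤ √(n : ℝ) := Real.sqrt_nonneg _
    have h4 : √(n : ℝ) / 2 * ∑ i, ∑ j, (|U i j| - 1 / √(n : ℝ)) ^ 2 ≤
        √(n : ℝ) / 2 * 2 ^ ((2 * (C + 1)) ^ (k + 1)) :=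
      mul_le_mul_of_nonneg_left (h2.trans hpow) (by positivity)
    have h5 : 0 ≤ √(n : ℝ) * 2 ^ ((2 * (C + 1)) ^ (k + 1)) := by positivity
    linarith

theorem low_main (n : ℕ) (hn : 3 ≤ n) (h4 : ¬ 4 ∣ n) (U : Matrix (Fin n) (Fin n) ℝ)
    (hU : U * Uᵀ = 1) :
    (∃ i j, 1 / (3 * (n : ℝ)) ≤ |(|U i j|) - 1 / √(n : ℝ)|) ∧
      ∑ i, ∑ j, |U i j| ≤ (n : ℝ) * √(n : ℝ) - √(n : ℝ) / 18 := by
  have hlow := dist_low hn h4 U hU
  have hn' : 0 < n := by omega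
  have hn0 : (0 : ℝ) < n := by exact_mod_cast hn'
  refine ⟨?_, ?_⟩
  · by_contra hcon
    push Not at hcon
    have h1 : ∑ i, ∑ j, (|U i j| - 1 / √(n : ℝ)) ^ 2 <
        ∑ _i : Fin n, ∑ _j : Fin n, (1 / (3 * (n : ℝ))) ^ 2 := by
      have : Nonempty (Fin n) := ⟨⟨0, hn'⟩⟩
      refine Finset.sum_lt_sum_of_nonempty Finset.univ_nonempty fun i _ =>
        Finset.sum_lt_sum_of_nonempty Finset.univ_nonempty fun j _ => ?_
      rw [← sq_abs]
      exact pow_lt_pow_left₀ (hcon i j) (abs_nonneg _) two_ne_zero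
    have h2 : ∑ _i : Fin n, ∑ _j : Fin n, (1 / (3 * (n : ℝ))) ^ 2 = 1 / 9 := by
      simp only [Finset.sum_const, Finset.card_univ, Fintype.card_fin, nsmul_eq_mul]
      field_simp
      norm_num
    linarith
  · rw [one_norm hn' U hU]
    have h3 : 0 ≤ √(n : ℝ) := Real.sqrt_nonneg _
    nlinarith

end Pool.Agent.N908.FO
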